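import Pool.Agent.H97R2.BP.Defs2

/-!
# Bounded projections, task DECFIN: the decomposition in finite dimension

From the pointwise estimate (`Z_decpt`) by a minimax theorem for convexlike functions
(separation in finite dimension) and compactness.
-/

open scoped ComplexOrder InnerProductSpace ComplexConjugate TensorProduct
open Finset H759R2.Kad H710R2.DP

noncomputable section

namespace H97R2.BP

namespace ZZ267

/-- Minimax theorem for finitely many convexlike functions. -/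
theorem minimax_fin {B : Type*} [Nonempty B] {S : Type*} [Fintype S] (f : S → B → ℝ)
    (hconv : ∀ b b' : B, ∀ α β : ℝ, 0 ≤ α → 0 ≤ β → α + β = 1 →
      ∃ b'', ∀ s, f s b'' ≤ α * f s b + β * f s b')
    (x0 : S → ℝ)
    (hμ : ∀ μ : S → ℝ, (∀ s, 0 ≤ μ s) → 0 < ∑ s, μ s →
      ∃ b, ∑ s, μ s * f s b < ∑ s, μ s * x0 s) :
    ∃ b, ∀ s, f s b < x0 s := by
  classical
  by_contra hcon
  let A : Set (S → ℝ) := {y | ∃ b, ∀ s, f s b < y s}
  have hx0 : x0 ∉ A := hcon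
  have hAc : Convex ℝ A := by
    rintro y ⟨b, hb⟩ y' ⟨b', hb'⟩ α β hα hβ hαβ
    obtain ⟨b'', hb''⟩ := hconv b b' α β hα hβ hαβ
    refine ⟨b'', fun s => lt_of_le_of_lt (hb'' s) ?_⟩
    simp only [Pi.add_apply, Pi.smul_apply, smul_eq_mul]
    rcases hα.eq_or_lt with h0 | h0
    · have : β = 1 := by linarith
      rw [← h0, this]
      have := hb' s
      linarith
    · have h1 := mul_lt_mul_of_pos_left (hb s) h0
      have h2 := mul_le_mul_of_nonneg_left (hb' s).le hβ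
      linarith
  have hAo : IsOpen A := by
    have : A = ⋃ b : B, ⋂ s : S, {y : S → ℝ | f s b < y s} := by
      ext y
      simp [A]
    rw [this]
    exact isOpen_iUnion fun b => isOpen_iInter_of_finite fun s =>
      isOpen_lt continuous_const (continuous_apply s)
  obtain ⟨φ, hφ⟩ := geometric_hahn_banach_open_point hAc hAo hx0
  set μ : S → ℝ := fun s => - φ (fun j => if s = j then (1 : ℝ) else 0) with hμdef
  have hφμ : ∀ y : S → ℝ, φ y = - ∑ s, μ s * y s := by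
    intro y
    have := LinearMap.pi_apply_eq_sum_univ (φ : (S → ℝ) →ₗ[ℝ] ℝ) y
    simp only [ContinuousLinearMap.coe_coe] at this
    rw [this, ← Finset.sum_neg_distrib]
    refine Finset.sum_congr rfl fun s _ => ?_
    simp only [hμdef, smul_eq_mul]
    ring
  have hA : ∀ y ∈ A, ∑ s, μ s * x0 s < ∑ s, μ s * y s := by
    intro y hy
    have := hφ y hy
    rw [hφμ, hφμ] at this
    linarith
  obtain ⟨b0⟩ := ‹Nonempty B›
  have hμ0 : ∀ s, 0 ≤ μ s := by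
    intro s
    by_contra hneg
    push Not at hneg
    set y0 : S → ℝ := fun s => f s b0 + 1 with hy0
    have hy0A : y0 ∈ A := ⟨b0, fun s => by simp [hy0]⟩
    set D := ∑ s, μ s * y0 s - ∑ s, μ s * x0 s with hD
    have hDpos : 0 < D := by have := hA y0 hy0A; linarith
    have hr : 0 < D / (- μ s) := div_pos hDpos (by linarith)
    have hmem : (fun j => y0 j + D / (- μ s) * (if s = j then (1 : ℝ) else 0)) ∈ A := by
      refine ⟨b0, fun j => ?_⟩
      have h1 : f j b0 < y0 j := by simp [hy0]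
      have h2 : 0 ≤ D / (- μ s) * (if s = j then (1 : ℝ) else 0) := by
        split_ifs
        · linarith
        · simp
      linarith
    have h3 := hA _ hmem
    simp only [mul_add, Finset.sum_add_distrib] at h3
    have h4 : ∑ j, μ j * (D / (- μ s) * (if s = j then (1 : ℝ) else 0)) = - D := by
      have : ∀ j, μ j * (D / (- μ s) * (if s = j then (1 : ℝ) else 0)) =
          if s = j then μ j * (D / (- μ s)) else 0 := by
        intro j
        split_ifs <;> simp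
      simp_rw [this]
      rw [Finset.sum_ite_eq, if_pos (Finset.mem_univ s)]
      have hne : μ s ≠ 0 := by linarith
      field_simp
    rw [h4] at h3
    linarith
  have hpos : 0 < ∑ s, μ s := by
    rcases (Finset.sum_nonneg fun s _ => hμ0 s).eq_or_lt with h0 | h0
    · exfalso
      have h1 : ∀ s, μ s = 0 := by
        intro s
        exact (Finset.sum_eq_zero_iff_of_nonneg (fun s _ => hμ0 s)).1 h0.symm s
          (Finset.mem_univ s)
      have h2 := hA (fun s => f s b0 + 1) ⟨b0, fun s => by simp⟩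
      simp [h1] at h2
    · exact h0
  obtain ⟨b, hb⟩ := hμ μ hμ0 hpos
  set δ := (∑ s, μ s * x0 s - ∑ s, μ s * f s b) / ∑ s, μ s with hδ
  have hδ0 : 0 < δ := div_pos (by linarith) hpos
  have h5 := hA (fun s => f s b + δ) ⟨b, fun s => by simp [hδ0]⟩
  simp only [mul_add, Finset.sum_add_distrib, ← Finset.sum_mul] at h5
  have h6 : (∑ s, μ s) * δ = ∑ s, μ s * x0 s - ∑ s, μ s * f s b := by
    rw [hδ]
    field_simp
  linarith

section ops

variable {E : Type} [NormedAddCommGroup E] [InnerProductSpace ℂ E] [FiniteDimensional ℂ E]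
  {ι : Type} [Fintype ι]

/-- The test functions. -/
def ff (a : ι → (E →L[ℂ] E)) (t : ℝ) (s : E × E) (b : ι → (E →L[ℂ] E)) : ℝ :=
  t⁻¹ * ∑ i, ‖(b i).adjoint s.1‖ ^ 2 + t * ∑ i, ‖(a i - b i) s.2‖ ^ 2

omit [FiniteDimensional ℂ E] in
theorem sq_conv (u v : E) (α β : ℝ) (hα : 0 ≤ α) (hβ : 0 ≤ β) (hαβ : α + β = 1) :
    ‖(α : ℂ) • u + (β : ℂ) • v‖ ^ 2 ≤ α * ‖u‖ ^ 2 + β * ‖v‖ ^ 2 := by
  have h1 : ‖(α : ℂ) • u + (β : ℂ) • v‖ ≤ α * ‖u‖ + β * ‖v‖ := by
    refine (norm_add_le _ _).trans ?_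
    rw [norm_smul, norm_smul, Complex.norm_real, Complex.norm_real, Real.norm_of_nonneg hα,
      Real.norm_of_nonneg hβ]
  have h2 : ‖(α : ℂ) • u + (β : ℂ) • v‖ ^ 2 ≤ (α * ‖u‖ + β * ‖v‖) ^ 2 :=
    pow_le_pow_left₀ (norm_nonneg _) h1 2
  refine h2.trans ?_
  have hβ' : β = 1 - α := by linarith
  subst hβ'
  nlinarith [mul_nonneg (mul_nonneg hα hβ) (sq_nonneg (‖u‖ - ‖v‖))]

theorem ff_conv (a : ι → (E →L[ℂ] E)) (t : ℝ) (ht : 0 < t) (b b' : ι → (E →L[ℂ] E)) (α β : ℝ)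
    (hα : 0 ≤ α) (hβ : 0 ≤ β) (hαβ : α + β = 1) (s : E × E) :
    ff a t s (fun i => (α : ℂ) • b i + (β : ℂ) • b' i) ≤ α * ff a t s b + β * ff a t s b' := by
  unfold ff
  have h1 : ∀ i, ‖((α : ℂ) • b i + (β : ℂ) • b' i).adjoint s.1‖ ^ 2 ≤
      α * ‖(b i).adjoint s.1‖ ^ 2 + β * ‖(b' i).adjoint s.1‖ ^ 2 := by
    intro i
    have e : ((α : ℂ) • b i + (β : ℂ) • b' i).adjoint s.1 =
        (α : ℂ) • (b i).adjoint s.1 + (β : ℂ) • (b' i).adjoint s.1 := by
      rw [map_add, map_smulₛₗ, map_smulₛₗ, Complex.conj_ofReal, Complex.conj_ofReal]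
      rfl
    rw [e]
    exact sq_conv _ _ α β hα hβ hαβ
  have h2 : ∀ i, ‖(a i - ((α : ℂ) • b i + (β : ℂ) • b' i)) s.2‖ ^ 2 ≤
      α * ‖(a i - b i) s.2‖ ^ 2 + β * ‖(a i - b' i) s.2‖ ^ 2 := by
    intro i
    have e : (a i - ((α : ℂ) • b i + (β : ℂ) • b' i)) s.2 =
        (α : ℂ) • ((a i - b i) s.2) + (β : ℂ) • ((a i - b' i) s.2) := by
      have h3 : a i s.2 = (α : ℂ) • a i s.2 + (β : ℂ) • a i s.2 := by
        rw [← add_smul, ← Complex.ofReal_add, hαβ, Complex.ofReal_one, one_smul]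
      simp only [sub_apply, add_apply, smul_apply, smul_sub]
      nth_rewrite 1 [h3]
      abel
    rw [e]
    exact sq_conv _ _ α β hα hβ hαβ
  have h3 : ∑ i, ‖((α : ℂ) • b i + (β : ℂ) • b' i).adjoint s.1‖ ^ 2 ≤
      α * ∑ i, ‖(b i).adjoint s.1‖ ^ 2 + β * ∑ i, ‖(b' i).adjoint s.1‖ ^ 2 := by
    rw [Finset.mul_sum, Finset.mul_sum, ← Finset.sum_add_distrib]
    exact Finset.sum_le_sum fun i _ => h1 i
  have h4 : ∑ i, ‖(a i - ((α : ℂ) • b i + (β : ℂ) • b' i)) s.2‖ ^ 2 ≤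
      α * ∑ i, ‖(a i - b i) s.2‖ ^ 2 + β * ∑ i, ‖(a i - b' i) s.2‖ ^ 2 := by
    rw [Finset.mul_sum, Finset.mul_sum, ← Finset.sum_add_distrib]
    exact Finset.sum_le_sum fun i _ => h2 i
  have h5 := mul_le_mul_of_nonneg_left h3 (inv_pos.2 ht).le
  have h6 := mul_le_mul_of_nonneg_left h4 ht.le
  nlinarith

theorem ff_cont (a : ι → (E →L[ℂ] E)) (t : ℝ) (s : E × E) : Continuous (ff a t s) := by
  unfold ff
  fun_prop

theorem tr_rank (x : E) (T : E →L[ℂ] E) :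
    LinearMap.trace ℂ E ((InnerProductSpace.rankOne ℂ x x ∘L T : E →L[ℂ] E) : E →ₗ[ℂ] E) =
      ⟪x, T x⟫_ℂ := by
  rw [InnerProductSpace.rankOne_comp, InnerProductSpace.trace_rankOne,
    ContinuousLinearMap.adjoint_inner_left]

theorem tr_sum {S : Type*} [Fintype S] (w : S → ℝ) (x : S → E) (T : E →L[ℂ] E) :
    (LinearMap.trace ℂ E (((∑ s, (w s : ℂ) • InnerProductSpace.rankOne ℂ (x s) (x s)) ∘L T :
      E →L[ℂ] E) : E →ₗ[ℂ] E)).re = ∑ s, w s * (⟪x s, T (x s)⟫_ℂ).re := by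
  have h1 : ((∑ s, (w s : ℂ) • InnerProductSpace.rankOne ℂ (x s) (x s)) ∘L T : E →L[ℂ] E) =
      ∑ s, (w s : ℂ) • (InnerProductSpace.rankOne ℂ (x s) (x s) ∘L T) := by
    ext y
    simp [_root_.sum_apply]
  rw [h1, ContinuousLinearMap.toLinearMap_sum, map_sum, Complex.re_sum]
  refine Finset.sum_congr rfl fun s _ => ?_
  rw [ContinuousLinearMap.toLinearMap_smul, map_smul, tr_rank, smul_eq_mul, Complex.re_ofReal_mul]

theorem inn1 (T : E →L[ℂ] E) (x : E) :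
    (⟪x, (T ∘L T.adjoint) x⟫_ℂ).re = ‖T.adjoint x‖ ^ 2 := by
  rw [ContinuousLinearMap.comp_apply, ← ContinuousLinearMap.adjoint_inner_left,
    inner_self_eq_norm_sq_to_K]
  norm_cast

theorem inn2 (T : E →L[ℂ] E) (x : E) :
    (⟪x, (T.adjoint ∘L T) x⟫_ℂ).re = ‖T x‖ ^ 2 := by
  rw [ContinuousLinearMap.comp_apply, ContinuousLinearMap.adjoint_inner_right,
    inner_self_eq_norm_sq_to_K]
  norm_cast

theorem claim1 (a : ι → (E →L[ℂ] E)) (ρ t : ℝ) (ht : 0 < t)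
    (h : ∀ G F : E →L[ℂ] E, G.IsPositive → F.IsPositive →
    (LinearMap.trace ℂ E (G : E →ₗ[ℂ] E)).re + (LinearMap.trace ℂ E (F : E →ₗ[ℂ] E)).re = 1 →
    ∃ b : ι → (E →L[ℂ] E),
      t⁻¹ * ∑ i, (LinearMap.trace ℂ E ((G ∘L b i ∘L (b i).adjoint : E →L[ℂ] E) : E →ₗ[ℂ] E)).re +
      t * ∑ i, (LinearMap.trace ℂ E ((F ∘L (a i - b i).adjoint ∘L (a i - b i) : E →L[ℂ] E) :
        E →ₗ[ℂ] E)).re ≤ ρ) (u : Finset (E × E)) :
    ∃ b : ι → (E →L[ℂ] E), ∀ s ∈ u, ff a t s b < ρ * (‖s.1‖ ^ 2 + ‖s.2‖ ^ 2) + 1 := by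
  have key := minimax_fin (B := ι → (E →L[ℂ] E)) (S := {s // s ∈ u})
    (fun s b => ff a t s.1 b)
    (fun b b' α β hα hβ hαβ => ⟨_, fun s => ff_conv a t ht b b' α β hα hβ hαβ s.1⟩)
    (fun s => ρ * (‖s.1.1‖ ^ 2 + ‖s.1.2‖ ^ 2) + 1) ?_
  · obtain ⟨b, hb⟩ := key
    exact ⟨b, fun s hs => hb ⟨s, hs⟩⟩
  intro μ hμ hpos
  set c : {s // s ∈ u} → ℝ := fun s => ‖s.1.1‖ ^ 2 + ‖s.1.2‖ ^ 2 with hc
  have hc0 : ∀ s, 0 ≤ c s := fun s => by positivity
  set W := ∑ s, μ s * c s with hW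
  have hW0 : 0 ≤ W := Finset.sum_nonneg fun s _ => mul_nonneg (hμ s) (hc0 s)
  have hx : ∑ s, μ s * (ρ * (‖s.1.1‖ ^ 2 + ‖s.1.2‖ ^ 2) + 1) = ρ * W + ∑ s, μ s := by
    rw [hW, Finset.mul_sum, ← Finset.sum_add_distrib]
    refine Finset.sum_congr rfl fun s _ => ?_
    simp only [hc]
    ring
  rw [hx]
  rcases hW0.eq_or_lt with h0 | h0
  · refine ⟨0, ?_⟩
    have h1 : ∀ s, μ s * ff a t s.1 0 = 0 := by
      intro s
      have h2 : μ s * c s = 0 := (Finset.sum_eq_zero_iff_of_nonneg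
        (fun s _ => mul_nonneg (hμ s) (hc0 s))).1 h0.symm s (Finset.mem_univ s)
      rcases mul_eq_zero.1 h2 with h3 | h3
      · rw [h3, zero_mul]
      · have h4 : ‖s.1.1‖ ^ 2 = 0 := by
          have h5 : ‖s.1.1‖ ^ 2 + ‖s.1.2‖ ^ 2 = 0 := h3
          nlinarith [sq_nonneg ‖s.1.1‖, sq_nonneg ‖s.1.2‖]
        have h5 : ‖s.1.2‖ ^ 2 = 0 := by
          have h6 : ‖s.1.1‖ ^ 2 + ‖s.1.2‖ ^ 2 = 0 := h3
          nlinarith [sq_nonneg ‖s.1.1‖, sq_nonneg ‖s.1.2‖]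
        have h6 : s.1.1 = 0 := by
          rw [← norm_eq_zero]
          exact (pow_eq_zero_iff two_ne_zero).1 h4
        have h7 : s.1.2 = 0 := by
          rw [← norm_eq_zero]
          exact (pow_eq_zero_iff two_ne_zero).1 h5
        simp [ff, h6, h7]
    rw [Finset.sum_congr rfl fun s _ => h1 s, ← h0]
    simpa using hpos
  · set w : {s // s ∈ u} → ℝ := fun s => μ s / W with hw
    have hw0 : ∀ s, 0 ≤ w s := fun s => div_nonneg (hμ s) h0.le
    set G : E →L[ℂ] E := ∑ s : {s // s ∈ u},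
      (w s : ℂ) • InnerProductSpace.rankOne ℂ s.1.1 s.1.1 with hG
    set F : E →L[ℂ] E := ∑ s : {s // s ∈ u},
      (w s : ℂ) • InnerProductSpace.rankOne ℂ s.1.2 s.1.2 with hF
    have hGp : G.IsPositive := ContinuousLinearMap.isPositive_sum _ fun s _ =>
      (InnerProductSpace.isPositive_rankOne_self _).smul_of_nonneg (by exact_mod_cast hw0 s)
    have hFp : F.IsPositive := ContinuousLinearMap.isPositive_sum _ fun s _ =>
      (InnerProductSpace.isPositive_rankOne_self _).smul_of_nonneg (by exact_mod_cast hw0 s)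
    have hself : ∀ x : E, (⟪x, x⟫_ℂ).re = ‖x‖ ^ 2 := fun x => by
      rw [inner_self_eq_norm_sq_to_K]
      norm_cast
    have htG : (LinearMap.trace ℂ E (G : E →ₗ[ℂ] E)).re = ∑ s, w s * ‖s.1.1‖ ^ 2 := by
      have := tr_sum w (fun s : {s // s ∈ u} => s.1.1) (ContinuousLinearMap.id ℂ E)
      rw [ContinuousLinearMap.comp_id] at this
      rw [hG, this]
      exact Finset.sum_congr rfl fun s _ => by rw [ContinuousLinearMap.id_apply, hself]
    have htF : (LinearMap.trace ℂ E (F : E →ₗ[ℂ] E)).re = ∑ s, w s * ‖s.1.2‖ ^ 2 := by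
      have := tr_sum w (fun s : {s // s ∈ u} => s.1.2) (ContinuousLinearMap.id ℂ E)
      rw [ContinuousLinearMap.comp_id] at this
      rw [hF, this]
      exact Finset.sum_congr rfl fun s _ => by rw [ContinuousLinearMap.id_apply, hself]
    have hWw : ∑ s, w s * c s = 1 := by
      have : ∀ s, w s * c s = (μ s * c s) / W := fun s => by simp only [hw]; ring
      rw [Finset.sum_congr rfl fun s _ => this s, ← Finset.sum_div, ← hW, div_self h0.ne']
    obtain ⟨b, hb⟩ := h G F hGp hFp (by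
      rw [htG, htF, ← hWw, ← Finset.sum_add_distrib]
      exact Finset.sum_congr rfl fun s _ => by simp only [hc]; ring)
    refine ⟨b, ?_⟩
    have e1 : ∀ i, (LinearMap.trace ℂ E ((G ∘L b i ∘L (b i).adjoint : E →L[ℂ] E) :
        E →ₗ[ℂ] E)).re = ∑ s, w s * ‖(b i).adjoint s.1.1‖ ^ 2 := by
      intro i
      rw [hG, tr_sum]
      exact Finset.sum_congr rfl fun s _ => by rw [inn1]
    have e2 : ∀ i, (LinearMap.trace ℂ E ((F ∘L (a i - b i).adjoint ∘L (a i - b i) : E →L[ℂ] E) :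
        E →ₗ[ℂ] E)).re = ∑ s, w s * ‖(a i - b i) s.1.2‖ ^ 2 := by
      intro i
      rw [hF, tr_sum]
      exact Finset.sum_congr rfl fun s _ => by rw [inn2]
    simp_rw [e1, e2] at hb
    have e3 : ∑ s, μ s * ff a t s.1 b = W * (t⁻¹ * ∑ i, ∑ s, w s * ‖(b i).adjoint s.1.1‖ ^ 2 +
        t * ∑ i, ∑ s, w s * ‖(a i - b i) s.1.2‖ ^ 2) := by
      rw [Finset.sum_comm (s := (univ : Finset ι)), Finset.sum_comm (s := (univ : Finset ι)),
        Finset.mul_sum, Finset.mul_sum, ← Finset.sum_add_distrib, Finset.mul_sum]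
      refine Finset.sum_congr rfl fun s _ => ?_
      rw [← Finset.mul_sum, ← Finset.mul_sum]
      simp only [ff, hw]
      field_simp
    rw [e3]
    have := mul_le_mul_of_nonneg_left hb hW0
    linarith

theorem ff_smul (a : ι → (E →L[ℂ] E)) (t : ℝ) (s : E × E) (b : ι → (E →L[ℂ] E)) (n : ℕ) :
    ff a t ((n : ℂ) • s.1, (n : ℂ) • s.2) b = (n : ℝ) ^ 2 * ff a t s b := by
  simp only [ff, map_smul, norm_smul, Complex.norm_natCast, mul_pow, ← Finset.mul_sum]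
  ring

theorem claim2 (a : ι → (E →L[ℂ] E)) (ρ t : ℝ) (hρ : 0 < ρ) (ht : 0 < t)
    (h : ∀ u : Finset (E × E),
      ∃ b : ι → (E →L[ℂ] E), ∀ s ∈ u, ff a t s b < ρ * (‖s.1‖ ^ 2 + ‖s.2‖ ^ 2) + 1) :
    ∃ b : ι → (E →L[ℂ] E), ∀ s, ff a t s b ≤ ρ * (‖s.1‖ ^ 2 + ‖s.2‖ ^ 2) + 1 := by
  classical
  haveI : FiniteDimensional ℂ (E →L[ℂ] E) :=
    LinearEquiv.finiteDimensional (LinearMap.toContinuousLinearMap (𝕜 := ℂ) (E := E) (F' := E))
  haveI : ProperSpace (ι → (E →L[ℂ] E)) := FiniteDimensional.proper ℂ _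
  set eb := stdOrthonormalBasis ℂ E with heb
  set q := √(t * (ρ + 1)) with hq
  set R := (Fintype.card (Fin (Module.finrank ℂ E)) : ℝ) * q with hR
  have hq0 : 0 ≤ q := Real.sqrt_nonneg _
  have hR0 : 0 ≤ R := by positivity
  have key := (isCompact_closedBall (0 : ι → (E →L[ℂ] E)) R).inter_iInter_nonempty
    (fun s : E × E => {b | ff a t s b ≤ ρ * (‖s.1‖ ^ 2 + ‖s.2‖ ^ 2) + 1})
    (fun s => isClosed_le (ff_cont a t s) continuous_const) ?_
  · obtain ⟨b, -, hb⟩ := key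
    rw [Set.mem_iInter] at hb
    exact ⟨b, fun s => hb s⟩
  intro u
  obtain ⟨b, hb⟩ := h (u ∪ univ.image (fun k => (eb k, (0 : E))))
  refine ⟨b, ?_, ?_⟩
  · rw [mem_closedBall_zero_iff, pi_norm_le_iff_of_nonneg hR0]
    intro i
    have h1 : ∀ k, ‖(b i).adjoint (eb k)‖ ≤ q := by
      intro k
      have h2 := hb (eb k, 0) (Finset.mem_union_right _ (Finset.mem_image_of_mem _
        (Finset.mem_univ k)))
      have h3 : ‖eb k‖ = 1 := eb.orthonormal.1 k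
      simp only [ff, map_zero, norm_zero, h3] at h2
      have h4 : t⁻¹ * ∑ i, ‖(b i).adjoint (eb k)‖ ^ 2 < ρ + 1 := by
        simpa using h2
      have h5 : ∑ i, ‖(b i).adjoint (eb k)‖ ^ 2 < t * (ρ + 1) := by
        rw [inv_mul_lt_iff₀ ht] at h4
        exact h4
      have h6 : ‖(b i).adjoint (eb k)‖ ^ 2 ≤ t * (ρ + 1) :=
        (Finset.single_le_sum (f := fun i => ‖(b i).adjoint (eb k)‖ ^ 2)
          (fun i _ => sq_nonneg _) (Finset.mem_univ i)).trans h5.le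
      exact Real.le_sqrt_of_sq_le h6
    rw [← (ContinuousLinearMap.adjoint (𝕜 := ℂ) (E := E) (F := E)).norm_map (b i)]
    refine ContinuousLinearMap.opNorm_le_bound _ hR0 fun x => ?_
    have h7 : (b i).adjoint x = ∑ k, ⟪eb k, x⟫_ℂ • (b i).adjoint (eb k) := by
      conv_lhs => rw [← eb.sum_repr' x]
      simp only [map_sum, map_smul]
    rw [h7]
    refine (norm_sum_le _ _).trans ?_
    have h8 : ∀ k, ‖⟪eb k, x⟫_ℂ • (b i).adjoint (eb k)‖ ≤ ‖x‖ * q := by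
      intro k
      rw [norm_smul]
      have h9 : ‖⟪eb k, x⟫_ℂ‖ ≤ ‖x‖ := by
        have := norm_inner_le_norm (𝕜 := ℂ) (eb k) x
        rwa [eb.orthonormal.1 k, one_mul] at this
      exact mul_le_mul h9 (h1 k) (norm_nonneg _) (norm_nonneg _)
    refine (Finset.sum_le_sum fun k _ => h8 k).trans ?_
    rw [Finset.sum_const, Finset.card_univ, nsmul_eq_mul, hR]
    exact le_of_eq (by ring)
  · rw [Set.mem_iInter₂]
    intro s hs
    exact (hb s (Finset.mem_union_left _ hs)).le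

theorem claim3 (a : ι → (E →L[ℂ] E)) (ρ t : ℝ) (b : ι → (E →L[ℂ] E))
    (h : ∀ s, ff a t s b ≤ ρ * (‖s.1‖ ^ 2 + ‖s.2‖ ^ 2) + 1) (s : E × E) :
    ff a t s b ≤ ρ * (‖s.1‖ ^ 2 + ‖s.2‖ ^ 2) := by
  by_contra hcon
  push Not at hcon
  set D := ff a t s b - ρ * (‖s.1‖ ^ 2 + ‖s.2‖ ^ 2) with hD
  have hD0 : 0 < D := by linarith
  obtain ⟨n, hn⟩ := exists_nat_gt (1 / D + 1)
  have h1 := h ((n : ℂ) • s.1, (n : ℂ) • s.2)
  rw [ff_smul] at h1
  simp only [norm_smul, Complex.norm_natCast, mul_pow] at h1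
  have h2 : (n : ℝ) ^ 2 * D ≤ 1 := by
    rw [hD]
    nlinarith
  have hD1 : 0 < 1 / D := by positivity
  have hn1 : (1 : ℝ) < n := by linarith
  have h3 : (n : ℝ) ≤ (n : ℝ) ^ 2 := by nlinarith
  have h4 : (n : ℝ) * D ≤ (n : ℝ) ^ 2 * D := mul_le_mul_of_nonneg_right h3 hD0.le
  have h5 : 1 / D * D = 1 := by field_simp
  nlinarith

end ops

end ZZ267

open ZZ267 in
/-- The decomposition in finite dimension. -/
theorem bp_decfin (h : Z_decpt) : Z_decfin := by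
  intro E _ _ _ ι _ a ρ t hρ ht hyp
  obtain ⟨b, hb⟩ := claim2 a ρ t hρ ht (claim1 a ρ t ht (h E ι a ρ t hρ ht hyp))
  have hb' := claim3 a ρ t b hb
  refine ⟨b, fun η => ?_, fun η => ?_⟩
  · have h1 := hb' (η, 0)
    simp only [ff, map_zero, norm_zero] at h1
    have h2 : t⁻¹ * ∑ i, ‖(b i).adjoint η‖ ^ 2 ≤ ρ * ‖η‖ ^ 2 := by simpa using h1
    rw [inv_mul_le_iff₀ ht] at h2
    linarith
  · have h1 := hb' (0, η)
    simp only [ff, map_zero, norm_zero] at h1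
    have h2 : t * ∑ i, ‖(a i - b i) η‖ ^ 2 ≤ ρ * ‖η‖ ^ 2 := by simpa using h1
    rw [div_mul_eq_mul_div, le_div_iff₀ ht]
    linarith

end H97R2.BP
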