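import Mathlib
import Pool.Agent.H68R2.BP.Props2

/-! Decomposition of matrices (helper267) -/

open scoped ComplexOrder InnerProductSpace ComplexConjugate Topology
open Finset Filter

noncomputable section

namespace H68R2.BP

open H759R2.Kad H744R2.KZ

namespace Kfdaux

open Matrix

variable {κ : Type} [Fintype κ] [DecidableEq κ]

/-- square root and its generalised inverse -/
theorem sqrt_ex (P : Matrix κ κ ℂ) (hP : P.PosSemidef) :
    ∃ α ψ : Matrix κ κ ℂ, α.PosSemidef ∧ α * α = P ∧ ψᴴ = ψ ∧ ψ * P = α ∧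
      (1 - α * ψ).PosSemidef := by
  obtain ⟨U, hU⟩ : ∃ U : Matrix κ κ ℂ, U = (hP.isHermitian.eigenvectorUnitary : Matrix κ κ ℂ) :=
    ⟨_, rfl⟩
  obtain ⟨L, hL⟩ : ∃ L : κ → ℝ, L = hP.isHermitian.eigenvalues := ⟨_, rfl⟩
  have hL0 : ∀ k, 0 ≤ L k := fun k => by rw [hL]; exact hP.eigenvalues_nonneg k
  have hUU : Uᴴ * U = 1 := by
    rw [hU]
    exact Unitary.coe_star_mul_self hP.isHermitian.eigenvectorUnitary
  have hUU' : U * Uᴴ = 1 := by
    rw [hU]
    exact Unitary.coe_mul_star_self hP.isHermitian.eigenvectorUnitary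
  have hPe : P = U * diagonal (fun k => (L k : ℂ)) * Uᴴ := by
    have h := hP.isHermitian.spectral_theorem
    rw [Unitary.conjStarAlgAut_apply] at h
    rw [hU, hL]
    exact h
  have hmul : ∀ D D' : κ → ℂ, (U * diagonal D * Uᴴ) * (U * diagonal D' * Uᴴ) =
      U * diagonal (fun k => D k * D' k) * Uᴴ := by
    intro D D'
    calc (U * diagonal D * Uᴴ) * (U * diagonal D' * Uᴴ)
        = U * diagonal D * (Uᴴ * U) * diagonal D' * Uᴴ := by simp only [Matrix.mul_assoc]
      _ = U * diagonal (fun k => D k * D' k) * Uᴴ := by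
          rw [hUU, Matrix.mul_one, Matrix.mul_assoc U, Matrix.diagonal_mul_diagonal]
  have hs : ∀ k, Real.sqrt (L k) * Real.sqrt (L k) = L k := fun k => Real.mul_self_sqrt (hL0 k)
  refine ⟨U * diagonal (fun k => ((Real.sqrt (L k) : ℝ) : ℂ)) * Uᴴ,
    U * diagonal (fun k => (((Real.sqrt (L k))⁻¹ : ℝ) : ℂ)) * Uᴴ, ?_, ?_, ?_, ?_, ?_⟩
  · refine PosSemidef.mul_mul_conjTranspose_same ?_ U
    refine PosSemidef.diagonal fun k => ?_
    exact Complex.zero_le_real.2 (Real.sqrt_nonneg _)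
  · rw [hmul, hPe]
    congr 3
    funext k
    rw [← Complex.ofReal_mul, hs]
  · rw [conjTranspose_mul, conjTranspose_mul, conjTranspose_conjTranspose,
      diagonal_conjTranspose, Matrix.mul_assoc]
    congr 3
    funext k
    simp
  · rw [hPe, hmul]
    congr 3
    funext k
    rw [← Complex.ofReal_mul]
    congr 1
    rcases (Real.sqrt_nonneg (L k)).eq_or_lt with h | h
    · have h0 := hs k
      rw [← h] at h0 ⊢
      rw [← h0]
      simp
    · rw [inv_mul_eq_div, div_eq_iff h.ne', hs]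
  · rw [hmul]
    have h1 : (1 : Matrix κ κ ℂ) - U * diagonal (fun k => ((Real.sqrt (L k) : ℝ) : ℂ) *
        (((Real.sqrt (L k))⁻¹ : ℝ) : ℂ)) * Uᴴ =
        U * diagonal (fun k => ((1 - Real.sqrt (L k) * (Real.sqrt (L k))⁻¹ : ℝ) : ℂ)) * Uᴴ := by
      have h2 : diagonal (fun k => ((1 - Real.sqrt (L k) * (Real.sqrt (L k))⁻¹ : ℝ) : ℂ)) =
          (1 : Matrix κ κ ℂ) - diagonal (fun k => ((Real.sqrt (L k) : ℝ) : ℂ) *
        (((Real.sqrt (L k))⁻¹ : ℝ) : ℂ)) := by
        rw [← diagonal_one, diagonal_sub]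
        congr 1
        funext k
        push_cast
        rfl
      rw [h2, Matrix.mul_sub, Matrix.sub_mul, Matrix.mul_one, hUU']
    rw [h1]
    refine PosSemidef.mul_mul_conjTranspose_same ?_ U
    refine PosSemidef.diagonal fun k => ?_
    refine Complex.zero_le_real.2 ?_
    rcases (Real.sqrt_nonneg (L k)).eq_or_lt with h | h
    · rw [← h]; simp
    · rw [mul_inv_cancel₀ h.ne', sub_self]

variable {ι : Type} [Fintype ι]

/-- families with column norm at most `c` -/
def KC (κ ι : Type) [Fintype κ] [DecidableEq κ] [Fintype ι] (c : ℝ) : Set (ι → κ → κ → ℂ) :=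
  {a | ((c : ℂ) • (1 : Matrix κ κ ℂ) - ∑ i, (Matrix.of (a i))ᴴ * Matrix.of (a i)).PosSemidef}

theorem mem_KC {c : ℝ} {a : ι → κ → κ → ℂ} : a ∈ KC κ ι c ↔
    ∀ v : κ → ℂ, ∑ i, ∑ p, ‖∑ q, a i p q * v q‖ ^ 2 ≤ c * ∑ q, ‖v q‖ ^ 2 := by
  have h1 : ∀ v : κ → ℂ, star v ⬝ᵥ (((c : ℂ) • (1 : Matrix κ κ ℂ) -
      ∑ i, (Matrix.of (a i))ᴴ * Matrix.of (a i)) *ᵥ v) =
      ((c * ∑ q, ‖v q‖ ^ 2 - ∑ i, ∑ p, ‖∑ q, a i p q * v q‖ ^ 2 : ℝ) : ℂ) := by
    intro v
    rw [Matrix.sub_mulVec, dotProduct_sub, Matrix.smul_mulVec, Matrix.one_mulVec, dotProduct_smul,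
      Complex.ofReal_sub]
    congr 1
    · rw [smul_eq_mul, Complex.ofReal_mul]
      congr 1
      rw [Complex.ofReal_sum]
      refine Finset.sum_congr rfl fun q _ => ?_
      rw [Pi.star_apply, Complex.star_def, mul_comm, Complex.mul_conj, Complex.normSq_eq_norm_sq]
    · rw [Matrix.sum_mulVec, dotProduct_sum, Complex.ofReal_sum]
      refine Finset.sum_congr rfl fun i _ => ?_
      rw [← Matrix.mulVec_mulVec, Matrix.dotProduct_mulVec, ← Matrix.star_mulVec,
        Complex.ofReal_sum]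
      refine Finset.sum_congr rfl fun p _ => ?_
      rw [Pi.star_apply, Complex.star_def, mul_comm, Complex.mul_conj, Complex.normSq_eq_norm_sq]
      rfl
  unfold KC
  rw [Set.mem_ofPred_eq, Matrix.posSemidef_iff_dotProduct_mulVec]
  constructor
  · rintro ⟨-, h⟩ v
    have h2 := h v
    rw [h1, Complex.zero_le_real] at h2
    linarith
  · intro h
    refine ⟨?_, fun v => ?_⟩
    · refine Matrix.IsHermitian.sub ?_ ?_
      · show ((c : ℂ) • (1 : Matrix κ κ ℂ))ᴴ = _
        rw [conjTranspose_smul, conjTranspose_one]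
        simp
      · show (∑ i, (Matrix.of (a i))ᴴ * Matrix.of (a i))ᴴ = _
        rw [conjTranspose_sum]
        refine Finset.sum_congr rfl fun i _ => ?_
        rw [conjTranspose_mul, conjTranspose_conjTranspose]
    · rw [h1, Complex.zero_le_real]
      linarith [h v]

theorem convex_KC (c : ℝ) : Convex ℝ (KC κ ι c) := by
  intro a ha b hb s t hs ht hst
  rw [mem_KC] at ha hb ⊢
  intro v
  have h1 : ∀ (x y : ℂ), ‖(s : ℂ) * x + (t : ℂ) * y‖ ^ 2 ≤ s * ‖x‖ ^ 2 + t * ‖y‖ ^ 2 := by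
    intro x y
    have h2 : ‖(s : ℂ) * x + (t : ℂ) * y‖ ≤ s * ‖x‖ + t * ‖y‖ := by
      refine (norm_add_le _ _).trans ?_
      rw [norm_mul, norm_mul, Complex.norm_real, Complex.norm_real, Real.norm_of_nonneg hs,
        Real.norm_of_nonneg ht]
    have h3 := pow_le_pow_left₀ (norm_nonneg _) h2 2
    refine h3.trans ?_
    have h4 : s * ‖x‖ ^ 2 + t * ‖y‖ ^ 2 - (s * ‖x‖ + t * ‖y‖) ^ 2 = s * t * (‖x‖ - ‖y‖) ^ 2 := by
      have : s = 1 - t := by linarith
      rw [this]; ring
    have h5 : 0 ≤ s * t * (‖x‖ - ‖y‖) ^ 2 := by positivity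
    linarith
  calc ∑ i, ∑ p, ‖∑ q, (s • a + t • b) i p q * v q‖ ^ 2
      ≤ ∑ i, ∑ p, (s * ‖∑ q, a i p q * v q‖ ^ 2 + t * ‖∑ q, b i p q * v q‖ ^ 2) := by
        refine Finset.sum_le_sum fun i _ => Finset.sum_le_sum fun p _ => ?_
        have h6 : ∑ q, (s • a + t • b) i p q * v q =
            (s : ℂ) * (∑ q, a i p q * v q) + (t : ℂ) * ∑ q, b i p q * v q := by
          rw [Finset.mul_sum, Finset.mul_sum, ← Finset.sum_add_distrib]
          refine Finset.sum_congr rfl fun q _ => ?_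
          simp only [Pi.add_apply, Pi.smul_apply, Complex.real_smul]
          ring
        rw [h6]
        exact h1 _ _
    _ = s * (∑ i, ∑ p, ‖∑ q, a i p q * v q‖ ^ 2) + t * ∑ i, ∑ p, ‖∑ q, b i p q * v q‖ ^ 2 := by
        simp only [Finset.sum_add_distrib, Finset.mul_sum]
    _ ≤ s * (c * ∑ q, ‖v q‖ ^ 2) + t * (c * ∑ q, ‖v q‖ ^ 2) := by
        exact add_le_add (mul_le_mul_of_nonneg_left (ha v) hs) (mul_le_mul_of_nonneg_left (hb v) ht)
    _ = c * ∑ q, ‖v q‖ ^ 2 := by rw [← add_mul, hst, one_mul]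

theorem compact_KC (c : ℝ) : IsCompact (KC κ ι c) := by
  refine Metric.isCompact_of_isClosed_isBounded ?_ ?_
  · have h : KC κ ι c = ⋂ v : κ → ℂ,
        {a | ∑ i, ∑ p, ‖∑ q, a i p q * v q‖ ^ 2 ≤ c * ∑ q, ‖v q‖ ^ 2} := by
      ext a
      rw [mem_KC, Set.mem_iInter]
      rfl
    rw [h]
    refine isClosed_iInter fun v => isClosed_le ?_ continuous_const
    fun_prop
  · rw [isBounded_iff_forall_norm_le]
    refine ⟨Real.sqrt c, fun a ha => ?_⟩
    rw [mem_KC] at ha
    rw [pi_norm_le_iff_of_nonneg (Real.sqrt_nonneg _)]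
    intro i
    rw [pi_norm_le_iff_of_nonneg (Real.sqrt_nonneg _)]
    intro p
    rw [pi_norm_le_iff_of_nonneg (Real.sqrt_nonneg _)]
    intro q
    have h1 := ha (Pi.single q 1)
    have h2 : ∀ i p, ∑ q', a i p q' * (Pi.single q (1:ℂ) : κ → ℂ) q' = a i p q := by
      intro i p
      rw [Finset.sum_eq_single q]
      · simp
      · intro q' _ hq'
        rw [Pi.single_eq_of_ne hq', mul_zero]
      · intro h
        exact absurd (Finset.mem_univ q) h
    have h3 : ∑ q', ‖(Pi.single q (1:ℂ) : κ → ℂ) q'‖ ^ 2 = 1 := by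
      rw [Finset.sum_eq_single q]
      · simp
      · intro q' _ hq'
        rw [Pi.single_eq_of_ne hq']
        simp
      · intro h
        exact absurd (Finset.mem_univ q) h
    rw [h3, mul_one] at h1
    simp only [h2] at h1
    refine Real.le_sqrt_of_sq_le ?_
    refine le_trans ?_ h1
    refine le_trans ?_ (Finset.single_le_sum (f := fun i => ∑ p, ‖a i p q‖ ^ 2)
      (fun i _ => Finset.sum_nonneg fun p _ => by positivity) (Finset.mem_univ i))
    exact Finset.single_le_sum (f := fun p => ‖a i p q‖ ^ 2) (fun p _ => by positivity)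
      (Finset.mem_univ p)

/-- conjugate transposition -/
def tr (κ ι : Type) : (ι → κ → κ → ℂ) →ₗ[ℝ] (ι → κ → κ → ℂ) where
  toFun a := fun i p q => conj (a i q p)
  map_add' a b := by funext i p q; simp
  map_smul' c a := by funext i p q; simp

/-- representation of a functional -/
theorem repr (g : (ι → κ → κ → ℂ) →L[ℝ] ℝ) : ∃ Y : ι → Matrix κ κ ℂ,
    ∀ Z : ι → κ → κ → ℂ, g Z = (∑ i, (Matrix.of (Z i) * Y i).trace).re := by
  classical
  let e : ι → κ → κ → ℂ → (ι → κ → κ → ℂ) := fun i p q z =>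
    Pi.single i (Pi.single p (Pi.single q z))
  refine ⟨fun i => Matrix.of fun q p => (g (e i p q 1) : ℂ) - Complex.I * g (e i p q Complex.I),
    fun Z => ?_⟩
  have hZ : Z = ∑ i, ∑ p, ∑ q, e i p q (Z i p q) := by
    funext i p q
    simp only [Finset.sum_apply]
    symm
    rw [Finset.sum_eq_single i, Finset.sum_eq_single p, Finset.sum_eq_single q]
    · simp only [e, Pi.single_eq_same]
    · intro q' _ h
      simp only [e, Pi.single_eq_same]
      rw [Pi.single_eq_of_ne h.symm]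
    · intro h; exact absurd (Finset.mem_univ _) h
    · intro p' _ h
      refine Finset.sum_eq_zero fun q' _ => ?_
      simp only [e, Pi.single_eq_same]
      rw [Pi.single_eq_of_ne h.symm]
      rfl
    · intro h; exact absurd (Finset.mem_univ _) h
    · intro i' _ h
      refine Finset.sum_eq_zero fun p' _ => Finset.sum_eq_zero fun q' _ => ?_
      simp only [e]
      rw [Pi.single_eq_of_ne h.symm]
      rfl
    · intro h; exact absurd (Finset.mem_univ _) h
  have he : ∀ i p q (z : ℂ), e i p q z = z.re • e i p q 1 + z.im • e i p q Complex.I := by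
    intro i p q z
    simp only [e]
    rw [← Pi.single_smul, ← Pi.single_smul, ← Pi.single_smul, ← Pi.single_smul, ← Pi.single_smul,
      ← Pi.single_smul, ← Pi.single_add, ← Pi.single_add, ← Pi.single_add]
    congr 3
    apply Complex.ext <;> simp
  conv_lhs => rw [hZ]
  rw [map_sum, Complex.re_sum]
  refine Finset.sum_congr rfl fun i _ => ?_
  rw [map_sum, Matrix.trace, Complex.re_sum]
  refine Finset.sum_congr rfl fun p _ => ?_
  rw [map_sum, Matrix.diag_apply, Matrix.mul_apply, Complex.re_sum]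
  refine Finset.sum_congr rfl fun q _ => ?_
  rw [he, map_add, map_smul, map_smul]
  simp only [Matrix.of_apply, Complex.mul_re, Complex.sub_re, Complex.ofReal_re, Complex.I_re,
    Complex.I_im, Complex.ofReal_im, Complex.sub_im, Complex.mul_im, smul_eq_mul]
  ring

end Kfdaux

open Kfdaux Matrix Pointwise in
theorem prove_K_fd (h1 : K_dual) : K_fd := by
  intro κ _ _ ι _ X μ s hμ hs hX
  obtain ⟨C1, hC1⟩ : ∃ C1, C1 = KC κ ι (s * μ) := ⟨_, rfl⟩
  obtain ⟨C2, hC2⟩ : ∃ C2, C2 = tr κ ι '' KC κ ι (μ / s) := ⟨_, rfl⟩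
  by_cases hmem : (fun i => Matrix.of.symm (X i)) ∈ C1 + C2
  · obtain ⟨A, hA, B, hB, hAB⟩ := Set.mem_add.1 hmem
    rw [hC1] at hA
    rw [hC2] at hB
    obtain ⟨B', hB', rfl⟩ := hB
    refine ⟨fun i => Matrix.of (A i), fun i => Matrix.of (tr κ ι B' i), fun i => ?_, hA, ?_⟩
    · exact (congrFun hAB i).symm
    · have h2 : ∀ i, Matrix.of (tr κ ι B' i) = (Matrix.of (B' i))ᴴ := fun i => rfl
      simp only [h2, conjTranspose_conjTranspose]
      exact hB'
  · exfalso
    have hcomp : IsCompact (C1 + C2) := by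
      rw [hC1, hC2]
      exact (compact_KC _).add ((compact_KC _).image
        (LinearMap.continuous_of_finiteDimensional _))
    have hconv : Convex ℝ (C1 + C2) := by
      rw [hC1, hC2]
      exact (convex_KC _).add ((convex_KC _).linear_image _)
    obtain ⟨f, u, hf1, hf2⟩ := geometric_hahn_banach_point_closed hconv hcomp.isClosed hmem
    obtain ⟨Y, hY⟩ := repr (-f)
    obtain ⟨P, hP⟩ : ∃ P, P = ∑ i, Y i * (Y i)ᴴ := ⟨_, rfl⟩
    obtain ⟨Q, hQ⟩ : ∃ Q, Q = ∑ i, (Y i)ᴴ * Y i := ⟨_, rfl⟩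
    have hPp : P.PosSemidef := by
      rw [hP]
      exact posSemidef_sum _ fun i _ => posSemidef_self_mul_conjTranspose _
    have hQp : Q.PosSemidef := by
      rw [hQ]
      exact posSemidef_sum _ fun i _ => posSemidef_conjTranspose_mul_self _
    obtain ⟨α, ψ, hα, hα2, hψ, hψP, hαψ⟩ := sqrt_ex P hPp
    obtain ⟨β, χ, hβ, hβ2, hχ, hχQ, hβχ⟩ := sqrt_ex Q hQp
    have key := h1 κ ι X Y α β μ hμ hα hβ (hα2.trans hP) (hβ2.trans hQ) hX
    obtain ⟨a, ha⟩ : ∃ a, a = α.trace.re := ⟨_, rfl⟩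
    obtain ⟨b, hb⟩ : ∃ b, b = β.trace.re := ⟨_, rfl⟩
    have ha0 : 0 ≤ a := by rw [ha]; exact (Complex.le_def.1 hα.trace_nonneg).1
    have hb0 : 0 ≤ b := by rw [hb]; exact (Complex.le_def.1 hβ.trace_nonneg).1
    rw [← ha, ← hb] at key
    -- the test families
    obtain ⟨A, hA⟩ : ∃ A : ι → Matrix κ κ ℂ, A = fun i =>
      ((Real.sqrt (s * μ) : ℝ) : ℂ) • ((Y i)ᴴ * ψ) := ⟨_, rfl⟩
    obtain ⟨B, hB⟩ : ∃ B : ι → Matrix κ κ ℂ, B = fun i =>
      ((Real.sqrt (μ / s) : ℝ) : ℂ) • (χ * (Y i)ᴴ) := ⟨_, rfl⟩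
    have hsμ : 0 ≤ s * μ := by positivity
    have hμs : 0 ≤ μ / s := by positivity
    have hA1 : (fun i => Matrix.of.symm (A i)) ∈ C1 := by
      rw [hC1]
      show (((s * μ : ℝ) : ℂ) • (1 : Matrix κ κ ℂ) - ∑ i, (A i)ᴴ * A i).PosSemidef
      have h2 : ∑ i, (A i)ᴴ * A i = ((s * μ : ℝ) : ℂ) • (α * ψ) := by
        have h3 : ∀ i, (A i)ᴴ * A i = ((s * μ : ℝ) : ℂ) • (ψ * (Y i * (Y i)ᴴ) * ψ) := by
          intro i
          rw [hA]
          simp only
          rw [conjTranspose_smul, conjTranspose_mul, conjTranspose_conjTranspose, hψ,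
            Matrix.smul_mul, Matrix.mul_smul, smul_smul]
          congr 1
          · rw [Complex.star_def, Complex.conj_ofReal, ← Complex.ofReal_mul,
              Real.mul_self_sqrt hsμ]
          · simp only [Matrix.mul_assoc]
        rw [Finset.sum_congr rfl (fun i _ => h3 i), ← Finset.smul_sum, ← Finset.sum_mul,
          ← Finset.mul_sum, ← hP, hψP]
      rw [h2, ← smul_sub]
      exact hαψ.smul (Complex.zero_le_real.2 hsμ)
    have hB1 : (fun i => Matrix.of.symm (B i)) ∈ C2 := by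
      rw [hC2]
      refine ⟨fun i => Matrix.of.symm ((B i)ᴴ), ?_, ?_⟩
      · show (((μ / s : ℝ) : ℂ) • (1 : Matrix κ κ ℂ) - ∑ i, ((B i)ᴴ)ᴴ * (B i)ᴴ).PosSemidef
        have h2 : ∑ i, ((B i)ᴴ)ᴴ * (B i)ᴴ = ((μ / s : ℝ) : ℂ) • (β * χ) := by
          have h3 : ∀ i, ((B i)ᴴ)ᴴ * (B i)ᴴ = ((μ / s : ℝ) : ℂ) • (χ * ((Y i)ᴴ * Y i) * χ) := by
            intro i
            rw [hB]
            simp only
            rw [conjTranspose_conjTranspose, conjTranspose_smul, conjTranspose_mul,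
              conjTranspose_conjTranspose, hχ,
              Matrix.smul_mul, Matrix.mul_smul, smul_smul]
            congr 1
            · rw [Complex.star_def, Complex.conj_ofReal, ← Complex.ofReal_mul,
                Real.mul_self_sqrt hμs]
            · simp only [Matrix.mul_assoc]
          rw [Finset.sum_congr rfl (fun i _ => h3 i), ← Finset.smul_sum, ← Finset.sum_mul,
            ← Finset.mul_sum, ← hQ, hχQ]
        rw [h2, ← smul_sub]
        exact hβχ.smul (Complex.zero_le_real.2 hμs)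
      · funext i p q
        show conj (conj (B i p q)) = B i p q
        exact Complex.conj_conj _
    have hfA : (-f) (fun i => Matrix.of.symm (A i)) = Real.sqrt (s * μ) * a := by
      rw [hY]
      have h2 : ∑ i, (Matrix.of ((fun i => Matrix.of.symm (A i)) i) * Y i).trace =
          ((Real.sqrt (s * μ) : ℝ) : ℂ) * α.trace := by
        have h3 : ∀ i, (Matrix.of ((fun i => Matrix.of.symm (A i)) i) * Y i).trace =
            ((Real.sqrt (s * μ) : ℝ) : ℂ) * (ψ * (Y i * (Y i)ᴴ)).trace := by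
          intro i
          show (A i * Y i).trace = _
          rw [hA]
          simp only
          rw [Matrix.smul_mul, Matrix.trace_smul, smul_eq_mul, Matrix.trace_mul_cycle,
            Matrix.trace_mul_comm]
        rw [Finset.sum_congr rfl (fun i _ => h3 i), ← Finset.mul_sum, ← Matrix.trace_sum,
          ← Finset.mul_sum, ← hP, hψP]
      rw [h2, Complex.re_ofReal_mul, ha]
    have hfB : (-f) (fun i => Matrix.of.symm (B i)) = Real.sqrt (μ / s) * b := by
      rw [hY]
      have h2 : ∑ i, (Matrix.of ((fun i => Matrix.of.symm (B i)) i) * Y i).trace =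
          ((Real.sqrt (μ / s) : ℝ) : ℂ) * β.trace := by
        have h3 : ∀ i, (Matrix.of ((fun i => Matrix.of.symm (B i)) i) * Y i).trace =
            ((Real.sqrt (μ / s) : ℝ) : ℂ) * (χ * ((Y i)ᴴ * Y i)).trace := by
          intro i
          show (B i * Y i).trace = _
          rw [hB]
          simp only
          rw [Matrix.smul_mul, Matrix.trace_smul, smul_eq_mul, Matrix.mul_assoc]
        rw [Finset.sum_congr rfl (fun i _ => h3 i), ← Finset.mul_sum, ← Matrix.trace_sum,
          ← Finset.mul_sum, ← hQ, hχQ]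
      rw [h2, Complex.re_ofReal_mul, hb]
    have hfX : (-f) (fun i => Matrix.of.symm (X i)) ≤ Real.sqrt μ * Real.sqrt (a * b) := by
      rw [hY]
      exact (Complex.re_le_norm _).trans key
    have h5 := hf2 _ (Set.add_mem_add hA1 hB1)
    rw [map_add] at h5
    have h6 : f (fun i => Matrix.of.symm (A i)) = -(Real.sqrt (s * μ) * a) := by
      rw [← hfA]; simp
    have h7 : f (fun i => Matrix.of.symm (B i)) = -(Real.sqrt (μ / s) * b) := by
      rw [← hfB]; simp
    have h8 : -f (fun i => Matrix.of.symm (X i)) ≤ Real.sqrt μ * Real.sqrt (a * b) := hfX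
    rw [h6, h7] at h5
    have h9 : Real.sqrt μ * Real.sqrt (a * b) ≤ Real.sqrt (s * μ) * a + Real.sqrt (μ / s) * b := by
      have e1 : Real.sqrt (s * μ) = Real.sqrt s * Real.sqrt μ := Real.sqrt_mul hs.le μ
      have e2 : Real.sqrt (μ / s) = Real.sqrt μ / Real.sqrt s := Real.sqrt_div hμ s
      have ht : 0 < Real.sqrt s := Real.sqrt_pos.2 hs
      have e3 : Real.sqrt (a * b) ≤ Real.sqrt s * a + b / Real.sqrt s := by
        rw [Real.sqrt_le_iff]
        refine ⟨by positivity, ?_⟩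
        have e4 : (Real.sqrt s * a + b / Real.sqrt s) ^ 2 =
            (Real.sqrt s * a) ^ 2 + 2 * (a * b) + (b / Real.sqrt s) ^ 2 := by
          field_simp
          ring
        rw [e4]
        nlinarith [sq_nonneg (Real.sqrt s * a), sq_nonneg (b / Real.sqrt s), mul_nonneg ha0 hb0]
      calc Real.sqrt μ * Real.sqrt (a * b) ≤ Real.sqrt μ * (Real.sqrt s * a + b / Real.sqrt s) :=
            mul_le_mul_of_nonneg_left e3 (Real.sqrt_nonneg _)
        _ = Real.sqrt (s * μ) * a + Real.sqrt (μ / s) * b := by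
            rw [e1, e2]
            ring
    linarith

end H68R2.BP
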